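import Pool.Agent.N520.AN.Stm2

/-!
Project AN2: limits of graphs. For a subsequence the dimensions of the space of the bounded limits
and of the attracting space of the inverses are complementary.
-/

set_option autoImplicit false

open Set Filter Topology

namespace Pool.Agent.N494.AN2

open Pool.Agent.N520.AN

theorem clm_tendsto {X Y : Type} [NormedAddCommGroup X] [NormedSpace ℝ X] [NormedAddCommGroup Y]
    [NormedSpace ℝ Y] {k : ℕ → X →L[ℝ] Y} {K : X →L[ℝ] Y} {f : ℕ → X} {F : X}
    (hk : Tendsto k atTop (𝓝 K)) (hf : Tendsto f atTop (𝓝 F)) :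
    Tendsto (fun j => k j (f j)) atTop (𝓝 (K F)) :=
  ((isBoundedBilinearMap_apply (𝕜 := ℝ) (E := X) (F := Y)).continuous.tendsto (K, F)).comp
    (hk.prodMk_nhds hf)

theorem t_gr (h : S2_PAR) : S2_GR := by
  intro E _ _ _ g
  have hprod : Module.finrank ℝ (E × E) = Module.finrank ℝ E + Module.finrank ℝ E :=
    Module.finrank_prod
  have hgr : ∀ j, Module.finrank ℝ (LinearMap.graph ((g j : E ≃ₗ[ℝ] E) : E →ₗ[ℝ] E)) =
      Module.finrank ℝ E := by
    intro j
    rw [LinearMap.graph_eq_range_prod]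
    apply LinearMap.finrank_range_of_inj
    intro a b hab
    simpa using congrArg Prod.fst hab
  choose u hu hur using fun j => h (E × E) (Module.finrank ℝ E)
    (LinearMap.graph ((g j : E ≃ₗ[ℝ] E) : E →ₗ[ℝ] E)) (by rw [hgr, hprod])
  have hmem : ∀ j f, (u j f).2 = g j (u j f).1 := by
    intro j f
    have := (hur j (u j f)).1 ⟨f, rfl⟩
    rw [LinearMap.mem_graph_iff] at this
    exact this
  have hR : ∀ j, ‖u j‖ ≤ ‖((toEuclidean (E := E × E)).symm : EuclideanSpace ℝ (Fin (Module.finrank ℝ (E × E))) →L[ℝ] E × E)‖ := by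
    intro j
    refine ContinuousLinearMap.opNorm_le_bound _ (norm_nonneg _) fun f => ?_
    calc ‖u j f‖ = ‖((toEuclidean (E := E × E)).symm : EuclideanSpace ℝ (Fin (Module.finrank ℝ (E × E))) →L[ℝ] E × E) (toEuclidean (u j f))‖ := by
          simp
      _ ≤ ‖((toEuclidean (E := E × E)).symm : EuclideanSpace ℝ (Fin (Module.finrank ℝ (E × E))) →L[ℝ] E × E)‖ * ‖toEuclidean (u j f)‖ :=
          ContinuousLinearMap.le_opNorm _ _
      _ = _ := by rw [hu]
  obtain ⟨U, -, φ, hφ, hU⟩ := tendsto_subseq_of_bounded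
    (Metric.isBounded_closedBall (x := (0 : EuclideanSpace ℝ (Fin (Module.finrank ℝ (E × E) -
      Module.finrank ℝ E)) →L[ℝ] E × E))
      (r := ‖((toEuclidean (E := E × E)).symm : EuclideanSpace ℝ (Fin (Module.finrank ℝ (E × E))) →L[ℝ] E × E)‖))
    (x := u) (fun j => by simpa using hR j)
  have happ : ∀ f, Tendsto (fun j => u (φ j) f) atTop (𝓝 (U f)) := fun f =>
    clm_tendsto hU tendsto_const_nhds
  have hUn : ∀ f, ‖toEuclidean (U f)‖ = ‖f‖ := by
    intro f
    have h1 : Tendsto (fun j => ‖toEuclidean (u (φ j) f)‖) atTop (𝓝 ‖toEuclidean (U f)‖) :=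
      (((toEuclidean (E := E × E)).continuous.tendsto _).comp (happ f)).norm
    simp only [hu] at h1
    exact tendsto_nhds_unique h1 tendsto_const_nhds |>.symm ▸ rfl
  have hinj : Function.Injective U := by
    rw [injective_iff_map_eq_zero]
    intro f hf
    have := hUn f
    rw [hf, map_zero, norm_zero] at this
    exact norm_eq_zero.1 this.symm
  -- compactness
  have key : ∀ p : ℕ → E × E, (∀ j, (p j).2 = g (φ j) (p j).1) → (∃ C, ∀ j, ‖p j‖ ≤ C) →
      ∃ (ψ : ℕ → ℕ) (f : _), StrictMono ψ ∧ Tendsto (fun j => p (ψ j)) atTop (𝓝 (U f)) := by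
    intro p hp ⟨C, hC⟩
    have h1 : ∀ j, ∃ f, u (φ j) f = p j := fun j => (hur (φ j) (p j)).2 (by
      rw [LinearMap.mem_graph_iff]
      exact hp j)
    choose f hf using h1
    have h2 : ∀ j, f j ∈ Metric.closedBall (0 : EuclideanSpace ℝ (Fin (Module.finrank ℝ (E × E) -
        Module.finrank ℝ E))) (‖(toEuclidean (E := E × E) : E × E →L[ℝ] EuclideanSpace ℝ (Fin (Module.finrank ℝ (E × E))))‖ * C) := by
      intro j
      rw [mem_closedBall_zero_iff, ← hu (φ j) (f j), hf j]
      exact (ContinuousLinearMap.le_opNorm (toEuclidean (E := E × E) : E × E →L[ℝ] EuclideanSpace ℝ (Fin (Module.finrank ℝ (E × E)))) _).trans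
        (mul_le_mul_of_nonneg_left (hC j) (norm_nonneg _))
    obtain ⟨f', -, ψ, hψ, hf'⟩ := tendsto_subseq_of_bounded Metric.isBounded_closedBall h2
    refine ⟨ψ, f', hψ, ?_⟩
    have h3 := clm_tendsto (hU.comp hψ.tendsto_atTop) hf'
    refine h3.congr fun j => ?_
    simp [hf]
  refine ⟨φ, hφ, ?_⟩
  -- the two spaces
  have hbig : big (g ∘ φ) = (LinearMap.range U.toLinearMap).map (LinearMap.snd ℝ E E) := by
    ext v
    constructor
    · rintro ⟨x, C, hx, hv⟩
      obtain ⟨C', hC'⟩ := (Metric.isBounded_range_of_tendsto _ hv).exists_norm_le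
      obtain ⟨ψ, f, hψ, hf⟩ := key (fun j => (x j, g (φ j) (x j))) (fun j => rfl)
        ⟨max C C', fun j => by
          rw [Prod.norm_def]
          exact max_le_max (hx j) (hC' _ ⟨j, rfl⟩)⟩
      refine ⟨U f, ⟨f, rfl⟩, ?_⟩
      have h1 := (continuous_snd.tendsto _).comp hf
      have h2 := hv.comp hψ.tendsto_atTop
      exact tendsto_nhds_unique h1 h2
    · rintro ⟨_, ⟨f, rfl⟩, rfl⟩
      have h1 := (continuous_fst.tendsto _).comp (happ f)
      obtain ⟨C, hC⟩ := (Metric.isBounded_range_of_tendsto _ h1).exists_norm_le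
      refine ⟨fun j => (u (φ j) f).1, C, fun j => hC _ ⟨j, rfl⟩, ?_⟩
      have h2 := (continuous_snd.tendsto _).comp (happ f)
      refine h2.congr fun j => ?_
      exact hmem _ _
  have hatt : ∀ x, x ∈ att (inv g ∘ φ) ↔ ∃ f, U f = (x, 0) := by
    intro x
    constructor
    · rintro ⟨b, hb, hx⟩
      have h1 : Tendsto (fun j => (((g (φ j)).symm (b j), b j) : E × E)) atTop (𝓝 (x, 0)) :=
        hx.prodMk_nhds hb
      obtain ⟨C, hC⟩ := (Metric.isBounded_range_of_tendsto _ h1).exists_norm_le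
      obtain ⟨ψ, f, hψ, hf⟩ := key (fun j => ((g (φ j)).symm (b j), b j)) (fun j => by simp)
        ⟨C, fun j => hC _ ⟨j, rfl⟩⟩
      exact ⟨f, tendsto_nhds_unique hf (h1.comp hψ.tendsto_atTop)⟩
    · rintro ⟨f, hf⟩
      have h1 := happ f
      rw [hf] at h1
      refine ⟨fun j => (u (φ j) f).2, (continuous_snd.tendsto _).comp h1, ?_⟩
      refine ((continuous_fst.tendsto _).comp h1).congr fun j => ?_
      show (u (φ j) f).1 = (g (φ j)).symm (u (φ j) f).2
      rw [hmem, LinearEquiv.symm_apply_apply]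
  have hG : Module.finrank ℝ (LinearMap.range U.toLinearMap) = Module.finrank ℝ E := by
    rw [LinearMap.finrank_range_of_inj hinj, finrank_euclideanSpace, Fintype.card_fin, hprod]
    omega
  have hrn := LinearMap.finrank_range_add_finrank_ker
    ((LinearMap.snd ℝ E E).domRestrict (LinearMap.range U.toLinearMap))
  rw [LinearMap.range_domRestrict, ← hbig, hG] at hrn
  rw [← hrn]
  congr 1
  rw [(Submodule.equivMapOfInjective (LinearMap.inl ℝ E E) LinearMap.inl_injective
      (att (inv g ∘ φ))).finrank_eq,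
    (Submodule.equivMapOfInjective (LinearMap.range U.toLinearMap).subtype
      (Submodule.injective_subtype _) _).finrank_eq]
  have : Submodule.map (LinearMap.inl ℝ E E) (att (inv g ∘ φ)) =
      Submodule.map (LinearMap.range U.toLinearMap).subtype (LinearMap.ker
        ((LinearMap.snd ℝ E E).domRestrict (LinearMap.range U.toLinearMap))) := by
    ext p
    constructor
    · rintro ⟨x, hx, rfl⟩
      obtain ⟨f, hf⟩ := (hatt x).1 hx
      refine ⟨⟨(x, 0), ⟨f, hf⟩⟩, ?_, rfl⟩
      simp [LinearMap.domRestrict_apply]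
    · rintro ⟨⟨p, f, hf⟩, hp, rfl⟩
      have hp2 : p.2 = 0 := by simpa [LinearMap.domRestrict_apply] using hp
      refine ⟨p.1, (hatt p.1).2 ⟨f, ?_⟩, ?_⟩
      · have : U f = p := hf
        rw [this]
        exact Prod.ext rfl hp2
      · exact Prod.ext rfl hp2.symm
  rw [this]

end Pool.Agent.N494.AN2
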